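import Pool.Agent.W734.STB.Stms

/-! Project STB, part UNST: instability for `1/3 ≤ β ≤ 1`. -/

set_option autoImplicit false

noncomputable section

namespace Pool.Agent.W935.STB

open MeasureTheory Set Filter Metric Pool.Agent.W734.TWB Pool.Agent.W734.STB

/-- squared gradient of a real function -/
def gr (u : E3 → ℝ) (x : E3) : ℝ :=
  ∑ k : Fin 3, (fderiv ℝ u x (EuclideanSpace.single k (1 : ℝ))) ^ 2

/-- smooth functions with support in the closed ball of radius `r` -/
structure SB (r : ℝ) (u : E3 → ℝ) : Prop where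
  sm : ContDiff ℝ ((⊤ : ℕ∞) : WithTop ℕ∞) u
  supp : ∀ x, r < ‖x‖ → u x = 0

lemma SB.cs {r : ℝ} {u : E3 → ℝ} (h : SB r u) : HasCompactSupport u := by
  refine HasCompactSupport.of_support_subset_isCompact (isCompact_closedBall (0 : E3) r) ?_
  intro x hx
  rw [mem_closedBall_zero_iff]
  by_contra hc
  push Not at hc
  exact hx (h.supp x hc)

lemma bump : ∃ φ : E3 → ℝ, SB (1 / 4) φ ∧ ∫ x, φ x ^ 2 = 1 := by
  let f : ContDiffBump (0 : E3) := ⟨1 / 8, 1 / 4, by norm_num, by norm_num⟩
  have hpos : 0 < ∫ x, f x ^ 2 := by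
    have hc : Continuous fun x => f x ^ 2 := f.continuous.pow 2
    refine hc.integral_pos_of_hasCompactSupport_nonneg_nonzero (x := 0)
      (f.hasCompactSupport.comp_left (g := fun t : ℝ => t ^ 2) (by norm_num))
      (fun x => sq_nonneg _) ?_
    have : f 0 = 1 := f.one_of_mem_closedBall (mem_closedBall_self (by norm_num))
    rw [this]
    norm_num
  set c := ∫ x, f x ^ 2 with hcdef
  refine ⟨fun x => (√c)⁻¹ * f x, ⟨contDiff_const.mul f.contDiff, fun x hx => ?_⟩, ?_⟩
  · have : f x = 0 := f.zero_of_le_dist (by rw [dist_zero_right]; exact hx.le)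
    rw [this, mul_zero]
  · have e : ∀ x, ((√c)⁻¹ * f x) ^ 2 = c⁻¹ * f x ^ 2 := by
      intro x
      rw [mul_pow, inv_pow, Real.sq_sqrt hpos.le]
    simp_rw [e]
    rw [integral_const_mul, ← hcdef, inv_mul_cancel₀ hpos.ne']

lemma gr_nonneg (u : E3 → ℝ) (x : E3) : 0 ≤ gr u x := Finset.sum_nonneg fun _ _ => sq_nonneg _

lemma scaled (φ : E3 → ℝ) (hφ : SB (1 / 4) φ) (h1 : ∫ x, φ x ^ 2 = 1) (s : ℝ) (hs : 0 < s) :
    ∃ u : E3 → ℝ, SB (1 / (4 * s)) u ∧ ∫ x, u x ^ 2 = 1 ∧
      ∫ x, gr u x = s ^ 2 * ∫ x, gr φ x := by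
  have hfr : Module.finrank ℝ E3 = 3 := by simp
  have hq : (√(s ^ 3)) ^ 2 = s ^ 3 := Real.sq_sqrt (by positivity)
  refine ⟨fun x => √(s ^ 3) * φ (s • x), ⟨?_, fun x hx => ?_⟩, ?_, ?_⟩
  · exact contDiff_const.mul (hφ.sm.comp (contDiff_const_smul s))
  · have : φ (s • x) = 0 := by
      apply hφ.supp
      rw [norm_smul, Real.norm_eq_abs, abs_of_pos hs]
      rw [div_lt_iff₀ (by positivity)] at hx ⊢
      linarith
    rw [this, mul_zero]
  · have e : ∀ x, (√(s ^ 3) * φ (s • x)) ^ 2 = s ^ 3 * φ (s • x) ^ 2 := by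
      intro x
      rw [mul_pow, hq]
    simp_rw [e]
    rw [integral_const_mul, Measure.integral_comp_smul_of_nonneg (hR := hs.le) volume
      (fun x => φ x ^ 2) s, h1, hfr, smul_eq_mul, mul_one, mul_inv_cancel₀ (by positivity)]
  · have e : ∀ x, gr (fun x => √(s ^ 3) * φ (s • x)) x = s ^ 3 * s ^ 2 * gr φ (s • x) := by
      intro x
      unfold gr
      rw [Finset.mul_sum]
      refine Finset.sum_congr rfl fun k _ => ?_
      have hd : DifferentiableAt ℝ (fun x => φ (s • x)) x :=
        ((hφ.sm.comp (contDiff_const_smul s)).differentiable (by simp)).differentiableAt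
      have e1 : fderiv ℝ (fun x => √(s ^ 3) * φ (s • x)) x = √(s ^ 3) • (s • fderiv ℝ φ (s • x)) := by
        rw [fderiv_const_mul hd, fderiv_comp_smul]
      rw [e1]
      simp only [smul_apply, smul_eq_mul]
      rw [mul_pow, hq]
      ring
    simp_rw [e]
    rw [integral_const_mul, Measure.integral_comp_smul_of_nonneg (hR := hs.le) volume
      (fun x => gr φ x) s, hfr, smul_eq_mul]
    field_simp

/-- the product state -/
def Psi {N : ℕ} (u : E3 → ℝ) (x : Cfg N) : ℂ := ((∏ i, u (x i) : ℝ) : ℂ)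

lemma Psi_norm {N : ℕ} (u : E3 → ℝ) (x : Cfg N) : ‖Psi u x‖ ^ 2 = ∏ i, u (x i) ^ 2 := by
  unfold Psi
  rw [Complex.norm_real, Real.norm_eq_abs, sq_abs, Finset.prod_pow]

lemma Psi_symm {N : ℕ} (u : E3 → ℝ) (σ : Equiv.Perm (Fin N)) (x : Cfg N) :
    Psi u (x ∘ σ) = Psi u x := by
  unfold Psi
  congr 1
  exact Equiv.prod_comp σ fun i => u (x i)

lemma Psi_smooth {N : ℕ} {r : ℝ} {u : E3 → ℝ} (h : SB r u) :
    ContDiff ℝ ((⊤ : ℕ∞) : WithTop ℕ∞) (Psi u : Cfg N → ℂ) := by
  have h1 : ContDiff ℝ ((⊤ : ℕ∞) : WithTop ℕ∞) (fun x : Cfg N => ∏ i, u (x i)) :=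
    contDiff_prod fun i _ => h.sm.comp (contDiff_apply ℝ E3 i)
  exact Complex.ofRealCLM.contDiff.comp h1

lemma Psi_zero {N : ℕ} {r : ℝ} {u : E3 → ℝ} (h : SB r u) (x : Cfg N) (i : Fin N)
    (hi : r < ‖x i‖) : Psi u x = 0 := by
  unfold Psi
  rw [Finset.prod_eq_zero (Finset.mem_univ i) (h.supp _ hi), Complex.ofReal_zero]

lemma Psi_cs {N : ℕ} {r : ℝ} {u : E3 → ℝ} (h : SB r u) : HasCompactSupport (Psi u : Cfg N → ℂ) := by
  refine HasCompactSupport.of_support_subset_isCompact
    (isCompact_univ_pi fun _ : Fin N => isCompact_closedBall (0 : E3) r) ?_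
  intro x hx i _
  rw [mem_closedBall_zero_iff]
  by_contra hc
  push Not at hc
  exact hx (Psi_zero h x i hc)

lemma sq_int {r : ℝ} {u : E3 → ℝ} (h : SB r u) : Integrable fun x => u x ^ 2 := by
  have hc : Continuous fun x => u x ^ 2 := h.sm.continuous.pow 2
  have hcs : HasCompactSupport fun x => u x ^ 2 := by
    refine HasCompactSupport.of_support_subset_isCompact (isCompact_closedBall (0 : E3) r) ?_
    intro x hx
    rw [mem_closedBall_zero_iff]
    by_contra hc
    push Not at hc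
    apply hx
    change u x ^ 2 = 0
    rw [h.supp x hc]
    norm_num
  exact hc.integrable_of_hasCompactSupport hcs

lemma gr_int {r : ℝ} {u : E3 → ℝ} (h : SB r u) : Integrable (gr u) := by
  have hc : Continuous (fderiv ℝ u) := h.sm.continuous_fderiv (by simp)
  have hcs : HasCompactSupport (fderiv ℝ u) := h.cs.fderiv ℝ
  have hc2 : Continuous (gr u) := by
    unfold gr
    exact continuous_finsetSum _ fun k _ => (hc.clm_apply continuous_const).pow 2
  have hcs2 : HasCompactSupport (gr u) := by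
    refine hcs.mono ?_
    intro x hx
    rw [Function.mem_support] at hx ⊢
    intro h0
    apply hx
    unfold gr
    rw [h0]
    simp
  exact hc2.integrable_of_hasCompactSupport hcs2

/-- the factors of the kinetic energy -/
def hf {N : ℕ} (u : E3 → ℝ) (i j : Fin N) (z : E3) : ℝ := if j = i then gr u z else u z ^ 2

lemma hf_int {N : ℕ} {r : ℝ} {u : E3 → ℝ} (h : SB r u) (i j : Fin N) : Integrable (hf u i j) := by
  unfold hf
  by_cases hij : j = i
  · simp only [if_pos hij]
    exact gr_int h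
  · simp only [if_neg hij]
    exact sq_int h

lemma gsq_Psi {N : ℕ} {r : ℝ} {u : E3 → ℝ} (h : SB r u) (i : Fin N) (x : Cfg N) :
    gsq (Psi u) i x = ∏ j, hf u i j (x j) := by
  classical
  have hd : ∀ z, DifferentiableAt ℝ u z := fun z =>
    (h.sm.differentiable (by simp)).differentiableAt
  have h1 : HasFDerivAt (fun x : Cfg N => ∏ j, u (x j))
      (∑ j, (∏ l ∈ Finset.univ.erase j, u (x l)) •
        ((fderiv ℝ u (x j)).comp (ContinuousLinearMap.proj j))) x := by
    refine HasFDerivAt.finsetProd fun j _ => ?_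
    exact (hd (x j)).hasFDerivAt.comp x (hasFDerivAt_apply j x)
  have h2 : HasFDerivAt (Psi u : Cfg N → ℂ) (Complex.ofRealCLM.comp
      (∑ j, (∏ l ∈ Finset.univ.erase j, u (x l)) •
        ((fderiv ℝ u (x j)).comp (ContinuousLinearMap.proj j)))) x :=
    Complex.ofRealCLM.hasFDerivAt.comp x h1
  unfold gsq
  rw [h2.fderiv]
  have h3 : ∀ k : Fin 3, ‖(Complex.ofRealCLM.comp
      (∑ j, (∏ l ∈ Finset.univ.erase j, u (x l)) •
        ((fderiv ℝ u (x j)).comp (ContinuousLinearMap.proj (R := ℝ) (φ := fun _ : Fin N => E3) j))))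
        (Pi.single i (EuclideanSpace.single k (1 : ℝ)))‖ ^ 2 =
      (∏ l ∈ Finset.univ.erase i, u (x l) ^ 2) *
        (fderiv ℝ u (x i) (EuclideanSpace.single k (1 : ℝ))) ^ 2 := by
    intro k
    rw [ContinuousLinearMap.comp_apply, Complex.ofRealCLM_apply, Complex.norm_real,
      Real.norm_eq_abs, sq_abs, sum_apply, Finset.sum_eq_single i]
    · simp only [smul_apply, ContinuousLinearMap.comp_apply,
        ContinuousLinearMap.proj_apply, smul_eq_mul, Pi.single_eq_same]
      rw [mul_pow, Finset.prod_pow]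
    · intro j _ hj
      simp only [smul_apply, ContinuousLinearMap.comp_apply,
        ContinuousLinearMap.proj_apply, smul_eq_mul]
      rw [Pi.single_eq_of_ne hj, map_zero, mul_zero]
    · intro hi
      exact absurd (Finset.mem_univ i) hi
  rw [Finset.sum_congr rfl fun k _ => h3 k, ← Finset.mul_sum,
    ← Finset.mul_prod_erase Finset.univ _ (Finset.mem_univ i), mul_comm]
  congr 1
  · simp [hf, gr]
  · refine Finset.prod_congr rfl fun l hl => ?_
    rw [hf, if_neg (Finset.ne_of_mem_erase hl)]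

lemma gsq_int {N : ℕ} {r : ℝ} {u : E3 → ℝ} (h : SB r u) (i : Fin N) :
    Integrable (gsq (Psi u) i) ∧ (∫ x, u x ^ 2 = 1 → ∫ x, gsq (Psi u) i x = ∫ z, gr u z) := by
  have e : gsq (Psi u) i = fun x : Cfg N => ∏ j, hf u i j (x j) := by
    funext x
    exact gsq_Psi h i x
  rw [e]
  refine ⟨Integrable.fintype_prod fun j => hf_int h i j, fun h1 => ?_⟩
  rw [integral_fintype_prod_volume_eq_prod (fun j => hf u i j),
    ← Finset.mul_prod_erase Finset.univ _ (Finset.mem_univ i)]
  rw [Finset.prod_eq_one, mul_one]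
  · simp [hf]
  · intro j hj
    have hne := Finset.ne_of_mem_erase hj
    simp only [hf, if_neg hne]
    exact h1

lemma Psi_int {N : ℕ} {r : ℝ} {u : E3 → ℝ} (h : SB r u) :
    Integrable (fun x : Cfg N => ‖Psi u x‖ ^ 2) ∧
      (∫ x, u x ^ 2 = 1 → ∫ x : Cfg N, ‖Psi u x‖ ^ 2 = 1) := by
  simp_rw [Psi_norm]
  refine ⟨Integrable.fintype_prod fun _ => sq_int h, fun h1 => ?_⟩
  rw [integral_fintype_prod_volume_eq_pow (fun x => u x ^ 2), h1, one_pow]

/-! ### The potentials -/

/-- the largest of the three distances -/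
def mx (p : E3 × E3) : ℝ := max (max ‖p.1‖ ‖p.2‖) ‖p.1 - p.2‖

open Classical in
/-- the three-body potential -/
def V0 (p : E3 × E3) : ℝ := if 1 ≤ mx p ∧ mx p ≤ 2 then 1 else 0

open Classical in
/-- the pair potential -/
def W0 (A : ℝ) (z : E3) : ℝ := if ‖z‖ ≤ 1 then -A else 0

lemma mx_cont : Continuous mx := by
  unfold mx
  fun_prop

lemma max3 (a b c : ℝ) : max (max a b) c = max (max a c) b ∧ max (max a b) c = max (max c b) a := by
  constructor
  · rw [max_assoc, max_comm b c, ← max_assoc]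
  · rw [max_comm (max a b) c, max_comm a b, ← max_assoc]

lemma V0_adm : AdmV V0 := by
  refine ⟨?_, ?_, ⟨1, ?_⟩, ?_, ?_, ?_⟩
  · unfold V0
    refine Measurable.ite ?_ measurable_const measurable_const
    exact ((isClosed_le continuous_const mx_cont).inter
      (isClosed_le mx_cont continuous_const)).measurableSet
  · intro p
    unfold V0
    split_ifs <;> norm_num
  · intro p
    unfold V0
    split_ifs <;> norm_num
  · refine HasCompactSupport.of_support_subset_isCompact (isCompact_closedBall (0 : E3 × E3) 2) ?_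
    intro p hp
    rw [mem_closedBall_zero_iff]
    by_contra hc
    apply hp
    unfold V0
    rw [if_neg]
    rintro ⟨-, h⟩
    apply hc
    rw [Prod.norm_def]
    exact (le_max_left _ _).trans h
  · intro x y
    have : mx (x, y) = mx (y, x) := by
      unfold mx
      simp only
      rw [max_comm ‖x‖ ‖y‖, norm_sub_rev]
    unfold V0
    rw [this]
  · intro x y z
    have e1 : (x - y) - (x - z) = z - y := by abel
    have e2 : (y - x) - (y - z) = z - x := by abel
    have e3 : (z - y) - (z - x) = x - y := by abel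
    have h1 : mx (x - y, x - z) = mx (y - x, y - z) := by
      unfold mx
      simp only
      rw [e1, e2, norm_sub_rev y x, norm_sub_rev y z, norm_sub_rev z x]
      exact (max3 _ _ _).1
    have h2 : mx (x - y, x - z) = mx (z - y, z - x) := by
      unfold mx
      simp only
      rw [e1, e3, norm_sub_rev z x]
      exact (max3 _ _ _).2
    unfold V0
    constructor
    · rw [h1]
    · rw [h2]

lemma V0_ne : ¬ (V0 =ᵐ[volume] 0) := by
  intro h
  have hopen : IsOpen {p : E3 × E3 | 1 < mx p ∧ mx p < 2} :=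
    (isOpen_lt continuous_const mx_cont).inter (isOpen_lt mx_cont continuous_const)
  have hne : {p : E3 × E3 | 1 < mx p ∧ mx p < 2}.Nonempty := by
    refine ⟨(EuclideanSpace.single 0 (3 / 2 : ℝ), 0), ?_⟩
    have : mx (EuclideanSpace.single (0 : Fin 3) (3 / 2 : ℝ), 0) = 3 / 2 := by
      unfold mx
      simp only [sub_zero, PiLp.norm_single, norm_zero, Real.norm_eq_abs]
      norm_num
    constructor
    · rw [this]; norm_num
    · rw [this]; norm_num
  have hpos := hopen.measure_pos volume hne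
  have h0 : volume {p : E3 × E3 | ¬ V0 p = (0 : E3 × E3 → ℝ) p} = 0 := h
  have hsub : {p : E3 × E3 | 1 < mx p ∧ mx p < 2} ⊆
      {p : E3 × E3 | ¬ V0 p = (0 : E3 × E3 → ℝ) p} := by
    intro p hp hc
    have : V0 p = 1 := by
      unfold V0
      rw [if_pos ⟨hp.1.le, hp.2.le⟩]
    rw [this] at hc
    exact one_ne_zero hc
  exact absurd (measure_mono_null hsub h0) hpos.ne'

lemma W0_adm (A : ℝ) (hA : 0 ≤ A) : AdmA (W0 A) := by
  refine ⟨?_, ?_, ?_, ⟨A, ?_⟩, ?_⟩
  · unfold W0
    exact Measurable.ite (isClosed_le continuous_norm continuous_const).measurableSet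
      measurable_const measurable_const
  · intro x
    unfold W0
    rw [norm_neg]
  · intro x
    unfold W0
    split_ifs <;> linarith
  · intro x
    unfold W0
    split_ifs <;> linarith
  · refine HasCompactSupport.of_support_subset_isCompact (isCompact_closedBall (0 : E3) 1) ?_
    intro p hp
    rw [mem_closedBall_zero_iff]
    by_contra hc
    apply hp
    unfold W0
    rw [if_neg hc]

lemma card_pairs (N : ℕ) : 2 * (∑ i : Fin N, ((Finset.Ioi i).card : ℝ)) = N * (N - 1) := by
  have h1 : ∑ i : Fin N, (Finset.Ioi i).card = ∑ i ∈ Finset.range N, i := by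
    have : ∀ i : Fin N, (Finset.Ioi i).card = N - 1 - i := fun i => Fin.card_Ioi i
    rw [Finset.sum_congr rfl fun i _ => this i,
      Fin.sum_univ_eq_sum_range (fun i => N - 1 - i) N]
    exact Finset.sum_range_reflect (fun i => i) N
  have h2 := Finset.sum_range_id_mul_two N
  have h3 : (∑ i : Fin N, ((Finset.Ioi i).card : ℝ)) = ((∑ i ∈ Finset.range N, i : ℕ) : ℝ) := by
    rw [← h1]; push_cast; rfl
  rw [h3]
  rcases Nat.eq_zero_or_pos N with h | h
  · subst h; simp
  · have h4 : (((∑ i ∈ Finset.range N, i) * 2 : ℕ) : ℝ) = ((N * (N - 1) : ℕ) : ℝ) := by rw [h2]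
    push_cast [Nat.cast_sub h] at h4
    push_cast
    linarith

open Classical in
/-- the energy of the product state -/
lemma energy (β : ℝ) (N : ℕ) (hN : 1 ≤ N) (A B s : ℝ) (Vext : E3 → ℝ) (hV : Measurable Vext)
    (hB : ∀ x : E3, ‖x‖ ≤ 1 → |Vext x| ≤ B) (hs1 : 1 ≤ s) (hsβ : (N : ℝ) ^ β ≤ s)
    (hsN : √(N : ℝ) ≤ s) (u : E3 → ℝ) (hu : SB (1 / (4 * s)) u) (hu1 : ∫ x, u x ^ 2 = 1) :
    enC β N Vext (W0 A) V0 (Psi u) ≤ N * (∫ x, gr u x) + N * B -
      A * (N : ℝ) ^ (3 * β - 1) * (N * (N - 1) / 2) := by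
  have hs0 : 0 < s := by linarith
  have hB0 : 0 ≤ B := (abs_nonneg _).trans (hB 0 (by simp))
  let Vb : E3 → ℝ := fun z => if ‖z‖ ≤ 1 then Vext z else 0
  have hVbm : Measurable Vb :=
    Measurable.ite (isClosed_le continuous_norm continuous_const).measurableSet hV measurable_const
  have hVbB : ∀ z, |Vb z| ≤ B := by
    intro z
    simp only [Vb]
    split_ifs with h
    · exact hB z h
    · rw [abs_zero]; exact hB0
  -- the integrand
  have hF : ∀ x : Cfg N, kin (Psi u) x + (∑ i : Fin N, Vext (x i)) * ‖Psi u x‖ ^ 2 +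
      pairS (Wb β N (W0 A)) x * ‖Psi u x‖ ^ 2 + tripS (Vn N V0) x * ‖Psi u x‖ ^ 2 =
      kin (Psi u) x + (∑ i : Fin N, Vb (x i)) * ‖Psi u x‖ ^ 2 +
        (-(A * (N : ℝ) ^ (3 * β - 1) * (N * (N - 1) / 2))) * ‖Psi u x‖ ^ 2 := by
    intro x
    by_cases h0 : Psi u x = 0
    · rw [h0]; simp
    · have hx : ∀ i, ‖x i‖ ≤ 1 / (4 * s) := by
        intro i
        by_contra hc
        push Not at hc
        exact h0 (Psi_zero hu x i hc)
      have hx1 : ∀ i, ‖x i‖ ≤ 1 := by
        intro i
        refine (hx i).trans ?_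
        rw [div_le_one (by positivity)]
        linarith
      have hxx : ∀ i j, ‖x i - x j‖ ≤ 1 / (2 * s) := by
        intro i j
        refine (norm_sub_le _ _).trans ((add_le_add (hx i) (hx j)).trans (le_of_eq ?_))
        field_simp
        norm_num
      have e1 : ∑ i : Fin N, Vext (x i) = ∑ i : Fin N, Vb (x i) := by
        refine Finset.sum_congr rfl fun i _ => ?_
        simp only [Vb]
        rw [if_pos (hx1 i)]
      have e2 : pairS (Wb β N (W0 A)) x = -(A * (N : ℝ) ^ (3 * β - 1) * (N * (N - 1) / 2)) := by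
        unfold pairS
        have e3 : ∀ i j : Fin N, Wb β N (W0 A) (x i - x j) = (N : ℝ) ^ (3 * β - 1) * (-A) := by
          intro i j
          unfold Wb W0
          rw [if_pos]
          rw [norm_smul, Real.norm_eq_abs, abs_of_nonneg (by positivity)]
          calc (N : ℝ) ^ β * ‖x i - x j‖ ≤ s * (1 / (2 * s)) :=
                mul_le_mul hsβ (hxx i j) (norm_nonneg _) hs0.le
            _ = 1 / 2 := by field_simp
            _ ≤ 1 := by norm_num
        simp_rw [e3, Finset.sum_const, nsmul_eq_mul]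
        rw [← Finset.sum_mul]
        have := card_pairs N
        have h4 : (∑ i : Fin N, ((Finset.Ioi i).card : ℝ)) = N * (N - 1) / 2 := by linarith
        rw [h4]
        ring
      have e4 : tripS (Vn N V0) x = 0 := by
        unfold tripS
        refine Finset.sum_eq_zero fun i _ => Finset.sum_eq_zero fun j _ =>
          Finset.sum_eq_zero fun k _ => ?_
        unfold Vn V0
        rw [if_neg, mul_zero]
        rintro ⟨h1, -⟩
        have hb : ∀ a b : Fin N, ‖√(N : ℝ) • (x a - x b)‖ ≤ 1 / 2 := by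
          intro a b
          rw [norm_smul, Real.norm_eq_abs, abs_of_nonneg (by positivity)]
          calc √(N : ℝ) * ‖x a - x b‖ ≤ s * (1 / (2 * s)) :=
                mul_le_mul hsN (hxx a b) (norm_nonneg _) hs0.le
            _ = 1 / 2 := by field_simp
        have h2 : mx (√(N : ℝ) • (x i - x j, x i - x k)) ≤ 1 / 2 := by
          unfold mx
          refine max_le (max_le (hb i j) (hb i k)) ?_
          have : (√(N : ℝ) • (x i - x j, x i - x k)).1 - (√(N : ℝ) • (x i - x j, x i - x k)).2 =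
              √(N : ℝ) • (x k - x j) := by
            simp only [Prod.smul_fst, Prod.smul_snd]
            rw [← smul_sub]
            congr 1
            abel
          rw [this]
          exact hb k j
        linarith
      rw [e1, e2, e4]
      ring
  have hI1 : Integrable (fun x : Cfg N => kin (Psi u) x) := by
    unfold kin
    exact integrable_finsetSum _ fun i _ => (gsq_int hu i).1
  have hI2 : Integrable (fun x : Cfg N => ‖Psi u x‖ ^ 2) := (Psi_int hu).1
  have hP1 : ∫ x : Cfg N, ‖Psi u x‖ ^ 2 = 1 := (Psi_int hu).2 hu1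
  have hSb : ∀ x : Cfg N, |∑ i : Fin N, Vb (x i)| ≤ N * B := by
    intro x
    refine (Finset.abs_sum_le_sum_abs _ _).trans ((Finset.sum_le_sum fun i _ => hVbB (x i)).trans ?_)
    simp
  have hI3 : Integrable (fun x : Cfg N => (∑ i : Fin N, Vb (x i)) * ‖Psi u x‖ ^ 2) := by
    refine hI2.bdd_mul (c := N * B) ?_ (ae_of_all _ fun x => ?_)
    · exact (Finset.measurable_sum _ fun i _ => hVbm.comp (measurable_pi_apply i)).aestronglyMeasurable
    · rw [Real.norm_eq_abs]; exact hSb x
  have hI13 : Integrable (fun x : Cfg N =>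
      kin (Psi u) x + (∑ i : Fin N, Vb (x i)) * ‖Psi u x‖ ^ 2) := hI1.add hI3
  unfold enC
  rw [integral_congr_ae (ae_of_all _ hF), integral_add hI13 (hI2.const_mul _),
    integral_add hI1 hI3, integral_const_mul, hP1, mul_one]
  have hK : ∫ x : Cfg N, kin (Psi u) x = N * ∫ x, gr u x := by
    unfold kin
    rw [integral_finsetSum _ fun i _ => (gsq_int hu i).1]
    rw [Finset.sum_congr rfl fun i _ => (gsq_int hu i).2 hu1]
    simp
  have hVi : ∫ x : Cfg N, (∑ i : Fin N, Vb (x i)) * ‖Psi u x‖ ^ 2 ≤ N * B := by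
    have h1 : ∫ x : Cfg N, (∑ i : Fin N, Vb (x i)) * ‖Psi u x‖ ^ 2 ≤
        ∫ x : Cfg N, (N * B) * ‖Psi u x‖ ^ 2 := by
      refine integral_mono hI3 (hI2.const_mul _) fun x => ?_
      exact mul_le_mul_of_nonneg_right ((le_abs_self _).trans (hSb x)) (sq_nonneg _)
    rwa [integral_const_mul, hP1, mul_one] at h1
  rw [hK]
  linarith

theorem unst : S_UNST := by
  intro β hβ1 hβ2
  obtain ⟨φ, hφ, hφ1⟩ := bump
  set K : ℝ := (∫ x, gr φ x) + 1 with hKdef
  have hKE : 0 ≤ ∫ x, gr φ x := integral_nonneg fun x => gr_nonneg φ x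
  have hK : 0 < K := by linarith
  refine ⟨W0 (8 * K), V0, W0_adm _ (by positivity), V0_adm, V0_ne, fun Vext hVe C => ?_⟩
  obtain ⟨B, hB⟩ := hVe.loc (closedBall 0 1) (isCompact_closedBall _ _)
  have hB' : ∀ x : E3, ‖x‖ ≤ 1 → |Vext x| ≤ B := fun x hx =>
    hB x (by rwa [mem_closedBall_zero_iff])
  obtain ⟨M, hM⟩ := exists_nat_gt ((B + C) / K)
  set N : ℕ := max 2 M with hN
  have hN2 : 2 ≤ N := le_max_left _ _
  have hNM : M ≤ N := le_max_right _ _
  have hN2' : (2 : ℝ) ≤ N := by exact_mod_cast hN2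
  have hN1' : (1 : ℝ) ≤ N := by linarith
  have hN0' : (0 : ℝ) < N := by linarith
  have hKN : B + C < K * N := by
    have : (M : ℝ) ≤ N := by exact_mod_cast hNM
    rw [div_lt_iff₀ hK] at hM
    nlinarith
  set s : ℝ := max ((N : ℝ) ^ β) √(N : ℝ) with hs
  have hsβ : (N : ℝ) ^ β ≤ s := le_max_left _ _
  have hsN : √(N : ℝ) ≤ s := le_max_right _ _
  have hs1 : 1 ≤ s := (Real.one_le_rpow hN1' (by linarith)).trans hsβ
  have hs2 : s ^ 2 ≤ (N : ℝ) ^ (3 * β) := by
    have h1 : s ≤ (N : ℝ) ^ (3 * β / 2) := by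
      refine max_le (Real.rpow_le_rpow_of_exponent_le hN1' (by linarith)) ?_
      rw [Real.sqrt_eq_rpow]
      exact Real.rpow_le_rpow_of_exponent_le hN1' (by linarith)
    calc s ^ 2 ≤ ((N : ℝ) ^ (3 * β / 2)) ^ 2 := pow_le_pow_left₀ (by linarith) h1 2
      _ = (N : ℝ) ^ (3 * β) := by
        rw [← Real.rpow_natCast, ← Real.rpow_mul hN0'.le]
        congr 1
        push_cast
        ring
  obtain ⟨u, hu, hu1, hu2⟩ := scaled φ hφ hφ1 s (by linarith)
  refine ⟨N, by omega, Psi u, Psi_smooth hu, Psi_cs hu, Psi_symm u, (Psi_int hu).2 hu1, ?_⟩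
  have hE := energy β N (by omega) (8 * K) B s Vext hVe.meas hB' hs1 hsβ hsN u hu hu1
  refine hE.trans_lt ?_
  rw [hu2]
  set R : ℝ := (N : ℝ) ^ (3 * β) with hR
  have hRN : (N : ℝ) ≤ R := by
    calc (N : ℝ) = (N : ℝ) ^ (1 : ℝ) := (Real.rpow_one _).symm
      _ ≤ R := Real.rpow_le_rpow_of_exponent_le hN1' (by linarith)
  have hR1 : (N : ℝ) ^ (3 * β - 1) * N = R := by
    rw [← Real.rpow_add_one hN0'.ne', sub_add_cancel]
  have h1 : 8 * K * (N : ℝ) ^ (3 * β - 1) * (N * (N - 1) / 2) = 4 * K * R * (N - 1) := by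
    rw [← hR1]; ring
  rw [h1]
  have h2 : N * (s ^ 2 * ∫ x, gr φ x) ≤ N * (R * K) := by
    apply mul_le_mul_of_nonneg_left _ hN0'.le
    exact mul_le_mul hs2 (by linarith) hKE (by positivity)
  have h3 : 0 < R * K := by
    have : 0 < R := by linarith
    positivity
  have h4 : N * (R * K) - 4 * K * R * (N - 1) ≤ -(K * N) * N := by
    have h5 : N * (R * K) - 4 * K * R * (N - 1) = R * K * (4 - 3 * N) := by ring
    rw [h5]
    have h6 : R * K * (4 - 3 * N) ≤ R * K * (-N) :=
      mul_le_mul_of_nonneg_left (by linarith) h3.le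
    have h7 : N * K * N ≤ R * K * N := by
      apply mul_le_mul_of_nonneg_right _ hN0'.le
      exact mul_le_mul_of_nonneg_right hRN hK.le
    linarith
  have h8 : (B + C) * N < K * N * N := mul_lt_mul_of_pos_right hKN hN0'
  linarith

end Pool.Agent.W935.STB
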